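import Pool.Agent.Helper4.MCP.GoalsB

/-!
# Project MCP (MP_d8224a_co), packet ENT: the entropy inequality
-/

set_option autoImplicit false

namespace Pool.Agent.Helper8.MCP

open Pool.Agent.Helper4.MCP Pool.Agent.Helper26.MCE Pool.Agent.Helper87.MC Finset

theorem blk_sub {s : ℕ} {I : Finset (Fin s)} {π : Fin s → Option (Fin s)} (h : Can I π)
    (l : Fin s) : blk π l ⊆ I := by
  intro i hi
  rw [blk, mem_filter] at hi
  exact (h i l hi.2).1

theorem blk_empty {s : ℕ} {I : Finset (Fin s)} {π : Fin s → Option (Fin s)} (h : Can I π)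
    (l : Fin s) (hl : π l ≠ some l) : blk π l = ∅ := by
  rw [blk, filter_eq_empty_iff]
  intro i _ hi
  exact hl (h i l hi).2.1

theorem small {s : ℕ} {I : Finset (Fin s)} {π : Fin s → Option (Fin s)} (h : Can I π)
    (y : Finset (Fin s) → ℝ) (hy0 : y ∅ = 0) (hmono : ∀ I₁ I₂, I₁ ⊆ I₂ → y I₁ ≤ y I₂)
    (hnb : nb π ≤ 1) :
    (∑ l, (y (blk π l) + Real.log ((blk π l).card.factorial : ℝ))) ≤
      y I + Real.log (I.card.factorial : ℝ) := by
  classical
  have hz : ∀ l, π l ≠ some l → y (blk π l) + Real.log ((blk π l).card.factorial : ℝ) = 0 := by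
    intro l hl
    rw [blk_empty h l hl, hy0]
    simp
  have hI : 0 ≤ y I := by
    rw [← hy0]
    exact hmono _ _ (empty_subset _)
  have hlog : ∀ m k : ℕ, m ≤ k → Real.log (m.factorial : ℝ) ≤ Real.log (k.factorial : ℝ) := by
    intro m k hmk
    apply Real.log_le_log
    · exact_mod_cast Nat.factorial_pos m
    · exact_mod_cast Nat.factorial_le hmk
  have hlI : 0 ≤ Real.log (I.card.factorial : ℝ) := by
    have := hlog 0 I.card (Nat.zero_le _)
    simpa using this
  by_cases hex : ∃ l₀, π l₀ = some l₀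
  · obtain ⟨l₀, hl₀⟩ := hex
    have huniq : ∀ l, l ≠ l₀ → π l ≠ some l := by
      intro l hl hl'
      rw [nb, card_le_one] at hnb
      exact hl (hnb l (by simp [hl']) l₀ (by simp [hl₀]))
    rw [sum_eq_single l₀ (fun l _ hl => hz l (huniq l hl)) (by simp)]
    exact add_le_add (hmono _ _ (blk_sub h l₀)) (hlog _ _ (card_le_card (blk_sub h l₀)))
  · have hall : ∀ l, π l ≠ some l := fun l hl => hex ⟨l, hl⟩
    rw [sum_eq_zero fun l _ => hz l (hall l)]
    linarith

theorem big {s : ℕ} {I : Finset (Fin s)} {π : Fin s → Option (Fin s)} (h : Can I π) :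
    (∑ l, Real.log ((blk π l).card.factorial : ℝ)) ≤
      (∑ l, Real.log ((((blk π l).card - 1).factorial : ℕ) : ℝ)) + nb π * Real.log (s + 1) := by
  classical
  have hs0 : 0 ≤ Real.log ((s : ℝ) + 1) := Real.log_nonneg (by
    have : (0 : ℝ) ≤ s := Nat.cast_nonneg s
    linarith)
  have h1 : (∑ l, Real.log ((blk π l).card.factorial : ℝ)) ≤
      ∑ l, (Real.log ((((blk π l).card - 1).factorial : ℕ) : ℝ) +
        if π l = some l then Real.log ((s : ℝ) + 1) else 0) := by
    refine sum_le_sum fun l _ => ?_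
    by_cases hl : π l = some l
    · rw [if_pos hl]
      have hpos : 0 < (blk π l).card := by
        rw [card_pos]
        refine ⟨l, ?_⟩
        rw [blk, mem_filter]
        exact ⟨mem_univ _, hl⟩
      have hle : (blk π l).card ≤ s := by
        have := card_le_univ (blk π l)
        simpa using this
      have e1 : ((blk π l).card.factorial : ℝ) =
          ((blk π l).card : ℝ) * ((((blk π l).card - 1).factorial : ℕ) : ℝ) := by
        exact_mod_cast (Nat.mul_factorial_pred hpos.ne').symm
      rw [e1, Real.log_mul (by exact_mod_cast hpos.ne') (by exact_mod_cast (Nat.factorial_pos _).ne'),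
        add_comm]
      refine add_le_add le_rfl (Real.log_le_log (by exact_mod_cast hpos) ?_)
      have : ((blk π l).card : ℝ) ≤ s := by exact_mod_cast hle
      linarith
    · rw [if_neg hl, blk_empty h l hl]
      simp
  refine h1.trans ?_
  rw [sum_add_distrib, ← sum_filter, sum_const, nsmul_eq_mul]
  refine le_of_eq ?_
  rw [nb]

/-- PACKET ENT -/
theorem goalENT (h1 : G_CRP) : G_ENT := by
  classical
  intro s I Θ _ p φ y c hs hp hsum hc hcan hy0 hmono hP
  have hs0 : (0 : ℝ) < s := by exact_mod_cast (by omega : 0 < s)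
  have hs5 : (0 : ℝ) < (s : ℝ) ^ 5 := pow_pos hs0 5
  obtain ⟨R, hR⟩ : ∃ R : ℝ, R = y I + Real.log (I.card.factorial : ℝ) := ⟨_, rfl⟩
  obtain ⟨P, hPd⟩ : ∃ P : (Fin s → Option (Fin s)) → ℝ, ∀ π, P π = ∑ θ, (if φ θ = π then p θ else 0) :=
    ⟨_, fun _ => rfl⟩
  obtain ⟨F, hF⟩ : ∃ F : (Fin s → Option (Fin s)) → ℝ, ∀ π, F π =
      ((∑ l, (y (blk π l) + Real.log ((blk π l).card.factorial : ℝ))) -
      (if 2 ≤ nb π then c + (nb π + 1) * Real.log (s + 1) + 5 * Real.log s else 0)) :=
    ⟨_, fun _ => rfl⟩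
  obtain ⟨Q, hQ⟩ : ∃ Q : (Fin s → Option (Fin s)) → ℝ, ∀ π, Q π =
      (∏ l, ((((blk π l).card - 1).factorial : ℕ) : ℝ)) / ((I.card + 1).factorial : ℝ) :=
    ⟨_, fun _ => rfl⟩
  have hP0 : ∀ π, 0 ≤ P π := by
    intro π
    rw [hPd]
    refine sum_nonneg fun θ _ => ?_
    split_ifs
    · exact hp θ
    · exact le_rfl
  have hprod : ∀ π : Fin s → Option (Fin s),
      (0 : ℝ) < ∏ l, ((((blk π l).card - 1).factorial : ℕ) : ℝ) := fun π =>
    prod_pos fun l _ => by exact_mod_cast Nat.factorial_pos _
  have hfI : (0 : ℝ) < ((I.card + 1).factorial : ℝ) := by exact_mod_cast Nat.factorial_pos _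
  have hQ0 : ∀ π, 0 < Q π := fun π => by rw [hQ]; exact div_pos (hprod π) hfI
  have hQs : ∑ π ∈ univ.filter (fun π : Fin s → Option (Fin s) => Can I π), Q π ≤ 1 := by
    have h2 := h1 s I
    rw [sum_congr rfl fun π _ => hQ π, ← sum_div, div_le_one hfI]
    have h3 : ((∑ π ∈ univ.filter (fun π : Fin s → Option (Fin s) => Can I π),
        ∏ l, ((blk π l).card - 1).factorial : ℕ) : ℝ) ≤ ((I.card + 1).factorial : ℝ) := by
      exact_mod_cast h2
    rw [Nat.cast_sum] at h3
    refine le_trans (le_of_eq (sum_congr rfl fun π _ => ?_)) h3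
    rw [Nat.cast_prod]
  have key : ∀ π ∈ univ.filter (fun π : Fin s → Option (Fin s) => Can I π),
      P π * F π ≤ P π * R + Q π / (s : ℝ) ^ 5 := by
    intro π hπ
    have hcπ : Can I π := (mem_filter.1 hπ).2
    have hQs5 : 0 < Q π / (s : ℝ) ^ 5 := div_pos (hQ0 π) hs5
    by_cases hnb : 2 ≤ nb π
    · rcases (hP0 π).eq_or_lt with h0 | h0
      · rw [← h0]
        linarith
      · have h4 : P π ≤ Real.exp (c + y I - ∑ l, y (blk π l)) := by
          rw [hPd]
          exact hP π hnb
        have h5 : Real.log (P π) ≤ c + y I - ∑ l, y (blk π l) := by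
          rw [← Real.log_exp (c + y I - ∑ l, y (blk π l))]
          exact Real.log_le_log h0 h4
        have h6 : Real.log (Q π) = (∑ l, Real.log ((((blk π l).card - 1).factorial : ℕ) : ℝ)) -
            (Real.log ((I.card : ℝ) + 1) + Real.log (I.card.factorial : ℝ)) := by
          rw [hQ, Real.log_div (hprod π).ne' hfI.ne', Real.log_prod]
          · rw [Nat.factorial_succ, Nat.cast_mul, Real.log_mul (by positivity) (by positivity)]
            push_cast
            ring
          · intro l _
            exact_mod_cast (Nat.factorial_pos _).ne'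
        have h7 : Real.log ((I.card : ℝ) + 1) ≤ Real.log ((s : ℝ) + 1) := by
          apply Real.log_le_log
          · positivity
          · have := card_le_univ I
            rw [Fintype.card_fin] at this
            have h8 : (I.card : ℝ) ≤ s := by exact_mod_cast this
            linarith
        have h8 := big hcπ
        have h9 : Real.log (Q π / (P π * (s : ℝ) ^ 5)) =
            Real.log (Q π) - (Real.log (P π) + 5 * Real.log s) := by
          rw [Real.log_div (hQ0 π).ne' (by positivity), Real.log_mul h0.ne' hs5.ne', Real.log_pow]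
          push_cast
          ring
        have h10 : Real.log (Q π / (P π * (s : ℝ) ^ 5)) ≤ Q π / (P π * (s : ℝ) ^ 5) := by
          have := Real.log_le_sub_one_of_pos (x := Q π / (P π * (s : ℝ) ^ 5))
            (div_pos (hQ0 π) (mul_pos h0 hs5))
          linarith
        have h11 : F π ≤ R + Q π / (P π * (s : ℝ) ^ 5) := by
          rw [hF, if_pos hnb, hR, sum_add_distrib]
          nlinarith
        calc P π * F π ≤ P π * (R + Q π / (P π * (s : ℝ) ^ 5)) :=
              mul_le_mul_of_nonneg_left h11 h0.le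
          _ = P π * R + Q π / (s : ℝ) ^ 5 := by
              field_simp
    · have h4 : F π ≤ R := by
        rw [hF, if_neg hnb, sub_zero, hR]
        exact small hcπ y hy0 hmono (by omega)
      have := mul_le_mul_of_nonneg_left h4 (hP0 π)
      linarith
  have hswap : ∀ f : (Fin s → Option (Fin s)) → ℝ, ∑ θ, p θ * f (φ θ) =
      ∑ π ∈ univ.filter (fun π : Fin s → Option (Fin s) => Can I π), P π * f π := by
    intro f
    have e1 : ∀ π, P π * f π = ∑ θ, (if φ θ = π then p θ * f (φ θ) else 0) := by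
      intro π
      rw [hPd, sum_mul]
      refine sum_congr rfl fun θ _ => ?_
      by_cases h : φ θ = π
      · rw [if_pos h, if_pos h, h]
      · rw [if_neg h, if_neg h, zero_mul]
    rw [sum_congr rfl fun π _ => e1 π, sum_comm]
    refine sum_congr rfl fun θ _ => ?_
    rw [sum_ite_eq, if_pos]
    rw [mem_filter]
    exact ⟨mem_univ _, hcan θ⟩
  have hP1 : ∑ π ∈ univ.filter (fun π : Fin s → Option (Fin s) => Can I π), P π = 1 := by
    have := hswap fun _ => 1
    simp only [mul_one] at this
    rw [← this, hsum]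
  have hfin : ∑ θ, p θ * F (φ θ) ≤ R + 1 / (s : ℝ) ^ 5 := by
    rw [hswap F]
    refine (sum_le_sum key).trans ?_
    rw [sum_add_distrib, ← sum_mul, hP1, one_mul, ← sum_div]
    have := div_le_div_of_nonneg_right hQs hs5.le
    linarith
  rw [hR] at hfin
  refine le_trans (le_of_eq (sum_congr rfl fun θ _ => ?_)) hfin
  rw [hF]

end Pool.Agent.Helper8.MCP
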